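import Pool.Agent.X312.FK.Idem

/-!
# A growth law for the Schur functors of geometric mixed motives

Let `k` be a perfect field, let `U` be **any** smooth scheme of finite type over `k`, and let `X`
be a smooth projective variety over `k` such that the numerically trivial self-correspondences of
its powers are nilpotent modulo rational equivalence and homological and numerical equivalence
agree on its powers (products of curves, abelian varieties in characteristic zero). For `r ≥ 1`
and a smooth projective variety `Z` consider in `DM_gm(k)_ℚ` the vector space

`T_r(Z) = ⊕_(i, j) Hom(M(Z)(i)[j], M(U) ^ ⊗ r)`.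

For `m ≥ 1` let `Λ_r(m)` be the set of the partitions `λ` of `r` such that there is a nonzero
morphism from one of the motives `M(X ^ m)(i)[j]` to `S_λ(M(U))`, and let `f^λ` be the number of
the standard tableaux of shape `λ`. Let `ρ(Z)` be the rank of the cycles of all codimensions on
`Z` modulo numerical equivalence, and `b` the sum of the Betti numbers of `X`. For all `r, m, n ≥
1`

`dim T_r(X ^ n) ≥ (∑_(λ ∈ Λ_r(m)) f^λ) (1 - 4 (m + 3) b ^ (m + 5) log (n + 1) / n) ρ(X ^ n)`.

If no `S_λ(M(U))` vanishes, and if these objects are detected by the motives `M(X ^ m)(i)[j]`,
then the first factor is the number of the involutions in the symmetric group, which grows faster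
than every exponential function of `r`. Conversely, **if** `dim T_r(X ^ n)` **is smaller than this
for one** `r` **and one** `n` **then for one partition** `λ` **of** `r` **there is no nonzero
morphism from the motives** `M(X ^ m)(i)[j]` **to** `S_λ(M(U))`. Nothing is assumed on `U`.

The correspondences between smooth projective varieties `Z` act on `T_r(Z)` by their transposes.
The orthogonal idempotents of the group algebra of the symmetric group which belong to the
standard tableaux `t` of size `r` (Young) commute with them, and they cut out the spaces `⊕
Hom(M(Z)(i)[j], S_λ(M(U)))`, `λ` the shape of `t`.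

The proof. Modulo numerical equivalence the self-correspondences of `P = X ^ m` form a
finite-dimensional algebra, and the numerically trivial ones are nilpotent, so that idempotents
can be lifted. Let `N` be a functor which does not vanish on `P`. One takes an idempotent
correspondence `g` on `P` of minimal rank with `g N(P) ≠ 0` and an element `z ≠ 0` of `g N(P)`.
The correspondences `x` with `x z = 0` have a nilpotent compression `g x g`, so the trace of `g x`
vanishes, and so `dim N(Z)` is at least the rank of the trace form `(u, v) ↦ tr (g v u)` on the
correspondences between `P` and `Z`; for `Z = X ^ n` this rank is compared with `ρ(X ^ n)` by the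
log-convexity of the sequence of the ranks of the intersection forms and by the symmetric group.
Apply this to the images of the idempotents, which are linearly independent subspaces.
-/

set_option autoImplicit false

open CategoryTheory AlgebraicGeometry

universe u v w

namespace Pool.Agent.Results.MP_fc2ced_ag.GapLaw

open Pool.Agent.H914 VarClass Obj WeilCohomology
open Pool.Agent.X312.FK (ChowData ChowModule DimAtLeast gapBound)
open Pool.Agent.Y133.Half (pw cycRank)

variable {k : Type u} [Field k] {𝒱 : VarClass k} {ops : CycleOps 𝒱}
  {W : WeilCohomology.{u, v} ops}

/-- The sum of the Betti numbers of `X`. -/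
noncomputable def totalBetti (W : WeilCohomology.{u, v} ops) (X : 𝒱.Obj) : ℕ :=
  Module.finrank W.K (W.H X)

/-- **The gap law for orthogonal idempotents.** In the intended use `C` is the category of Chow
correspondences over `k`, `T.M Z` is `⊕_(i, j) Hom(M(Z)(i)[j], M(U) ^ ⊗ r)`, possibly of infinite
dimension, `ι` is the set of the standard tableaux of size `r`, and `e` are Young's idempotents. Here
`pw X m` is the product of `m + 1` copies of `X`. -/
theorem result (C : ChowData W) (hC : C.IsChow) (T : ChowModule C) (hT : T.IsFunctor) {ι : Type}
    [Finite ι] (e : ι → ∀ Z : 𝒱.Obj, T.M Z → T.M Z) (he : T.IsOrthogonal e) (X : 𝒱.Obj)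
    (hX : ∀ n : ℕ, C.NumNil (pw X n)) (hD : ∀ n : ℕ, HomEqNum W (pw X n)) (m n : ℕ) :
    DimAtLeast W.K (T.M (pw X n)) (Set.ncard {i : ι | ∃ x : T.M (pw X m), e i _ x ≠ 0} *
      gapBound (totalBetti W X) (cycRank ops (pw X n)) m n) :=
  Pool.Agent.X312.FK.idem_law hC hT he X hX hD m n

end Pool.Agent.Results.MP_fc2ced_ag.GapLaw
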