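import Pool.Agent.X240.DR.Dbl

/-!
# Schur-finiteness of motives and affine linear sections of the general linear groups

For all `n`, the motives of the smooth separated schemes of finite type and dimension at most `n` over
the perfect field `k` are Schur-finite if and only if this is true for the open subschemes
`det (Q_0 + x_1 Q_1 + ⋯ + x_(n+1) Q_(n+1)) ≠ 0` of the affine space of dimension `n + 1`, for all
square matrices `Q_s` over `k` of any size. These are the inverse images of `GL_r` under affine linear
maps from the affine space to the space of matrices (the intersections of `GL_r` with affine linear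
subspaces). It is enough to take symmetric matrices (the points over which a quadric of a linear
system is nondegenerate), or alternating matrices.

Proof. Every polynomial is the determinant of a matrix with entries of degree at most one; the doubled
matrices `(0, L; L^T, 0)` and `(0, L; -L^T, 0)` have the determinants `± (det L)^2`. So all principal
open subschemes of the affine space of dimension `n + 1` occur. Closed subschemes are obtained from
them by closed-open decompositions, one equation after the other, and every integral scheme of
dimension at most `n` over the perfect field `k` has a nonempty open subscheme which is locally closed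
in the affine space of dimension `n + 1` (this is in the starting library, `Pool/Agent/Z125/UN/`).
-/

set_option autoImplicit false

open CategoryTheory MonoidalCategory AlgebraicGeometry Pool.Agent.TH137.DG Pool.Agent.Y116.UV
  Pool.Agent.Z125.UN Pool.Agent.X240.DR

namespace Pool.Agent.Results.MP_fc2ced_ag.LinearSectionsOfGL

universe v u

variable {k : Type} [Field k] {C : Type u} [Category.{v} C] [MonoidalCategory C]
  [SymmetricCategory C] [Preadditive C] [Linear ℚ C] [Limits.HasZeroObject C] [HasShift C ℤ]
  [∀ n : ℤ, (shiftFunctor C n).Additive] [Pretriangulated C] {D : Motives k C}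

lemma sec_sf (hD : IsMotives D) {N r : ℕ} (Q : Fin (N + 1) → Matrix (Fin r) (Fin r) k) :
    IsSchurFinite (D.M (linSec Q)) ↔ IsSchurFinite (D.Mc (linSec Q)) := by
  have h1 : Algebra.FiniteType k (Localization.Away (lin Q).det) :=
    Algebra.FiniteType.trans (S := MvPolynomial (Fin N) k) inferInstance inferInstance
  exact hD.duality _ (ft_aff True) (smooth_aff (smooth_section Q))

theorem result [PerfectField k] (hD : IsMotives D) :
    (∀ n : ℕ, List.TFAE
      [∀ X : Sch k, FT True X → Smooth X.hom → topologicalKrullDim X.left ≤ n →
        IsSchurFinite (D.M X),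
      ∀ (r : ℕ) (Q : Fin (n + 2) → Matrix (Fin r) (Fin r) k), IsSchurFinite (D.M (linSec Q)),
      ∀ (r : ℕ) (Q : Fin (n + 2) → Matrix (Fin r) (Fin r) k), (∀ s, (Q s).IsSymm) →
        IsSchurFinite (D.M (linSec Q)),
      ∀ (r : ℕ) (Q : Fin (n + 2) → Matrix (Fin r) (Fin r) k),
        (∀ s a b, Q s a b = -Q s b a ∧ Q s a a = 0) → IsSchurFinite (D.M (linSec Q))]) ∧
    ∀ (r : ℕ) (Q : Fin 3 → Matrix (Fin r) (Fin r) k), IsSchurFinite (D.M (linSec Q)) := by
  have hB := bnd_sf hD
  have back : ∀ n : ℕ, ∀ c : k, c * c = 1 →
      (∀ (r : ℕ) (Q : Fin (n + 2) → Matrix (Fin r) (Fin r) k),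
        IsSchurFinite (D.M (linSec (dblQ c Q)))) →
      ∀ X : Sch k, FT True X → Smooth X.hom → topologicalKrullDim X.left ≤ n →
        IsSchurFinite (D.M X) := by
    intro n c hc h X hX hs hn
    rw [hD.duality X hX hs]
    have h1 : ∀ w : MvPolynomial (Fin (n + 1)) k, IsSchurFinite (D.Mc (aff k
        (Localization.Away w))) :=
      of_dbl hB c hc fun r Q => (sec_sf hD _).mp (h r Q)
    exact of_affine_dim hB (closed_to_dim hB fun I => all_closed hB h1 I) X hX hn
  have forw : ∀ n : ℕ, (∀ X : Sch k, FT True X → Smooth X.hom → topologicalKrullDim X.left ≤ n →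
        IsSchurFinite (D.M X)) →
      ∀ (r : ℕ) (Q : Fin (n + 2) → Matrix (Fin r) (Fin r) k),
        IsSchurFinite (D.M (linSec Q)) := by
    intro n h r Q
    have h1 : ∀ X : Sch k, FT True X → topologicalKrullDim X.left ≤ n →
        IsSchurFinite (D.Mc X) :=
      dim_smooth hB n fun X hX hs hn => (hD.duality X hX hs).mp (h X hX hs hn)
    have h2 : ∀ I : Ideal (MvPolynomial (Fin (n + 1)) k),
        IsSchurFinite (D.Mc (aff k (MvPolynomial (Fin (n + 1)) k ⧸ I))) :=
      dim_to_closed hB fun A _ _ _ hA => h1 _ (ft_aff True) (by rw [topDim_aff]; exact hA)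
    exact (sec_sf hD Q).mpr (open_of_closed hB h2 _)
  refine ⟨fun n => ?_, forw 1 fun X hX hs hn => hD.curves X hX hs ?_⟩
  · apply List.tfae_of_cycle
    · simp only [List.isChain_cons_cons, List.IsChain.singleton, and_true]
      refine ⟨forw n, fun h r Q _ => h r Q, fun h => ?_⟩
      exact fun r Q _ => forw n (back n 1 (one_mul 1) fun r Q => h _ _ (symm_dblQ Q)) r Q
    · intro h
      exact back n (-1) (by ring) fun r Q => h _ _ fun s a b => alt_dblQ Q s a b
  · exact_mod_cast hn

end Pool.Agent.Results.MP_fc2ced_ag.LinearSectionsOfGL
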